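import Pool.Agent.H3.OD.Targets

/-!
# Roots of power series
-/

set_option autoImplicit false

namespace Pool.Agent.H69.OD

open PowerSeries

section

variable {k : Type} [Field k]

/-- one step: the coefficient of `X ^ (m + 1)` is corrected -/
theorem pow_step (p : k⟦X⟧) (t : k) (n m : ℕ) :
    (∀ j ≤ m, coeff j ((p + C t * X ^ (m + 1)) ^ n) = coeff j (p ^ n)) ∧
      coeff (m + 1) ((p + C t * X ^ (m + 1)) ^ n) =
        coeff (m + 1) (p ^ n) + t * (n * constantCoeff p ^ (n - 1)) := by
  set x := p + C t * X ^ (m + 1) with hx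
  have h1 : x ^ n = p ^ n + X ^ (m + 1) * (C t * ∑ i ∈ Finset.range n, x ^ i * p ^ (n - 1 - i)) := by
    have h2 := (Commute.all x p).mul_geom_sum₂ n
    have h3 : x - p = C t * X ^ (m + 1) := by rw [hx]; ring
    rw [h3] at h2
    linear_combination -h2
  have h4 : constantCoeff x = constantCoeff p := by
    rw [hx, map_add, map_mul, map_pow, constantCoeff_X]
    simp
  rw [h1]
  constructor
  · intro j hj
    rw [map_add, coeff_X_pow_mul', if_neg (by omega), add_zero]
  · rw [map_add, coeff_X_pow_mul', if_pos le_rfl, Nat.sub_self, coeff_zero_eq_constantCoeff_apply,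
      map_mul, constantCoeff_C, map_sum]
    have h5 : ∀ i ∈ Finset.range n, constantCoeff (x ^ i * p ^ (n - 1 - i)) =
        constantCoeff p ^ (n - 1) := by
      intro i hi
      have hi' := Finset.mem_range.1 hi
      rw [map_mul, map_pow, map_pow, h4, ← pow_add]
      congr 1
      omega
    rw [Finset.sum_congr rfl h5, Finset.sum_const, Finset.card_range, nsmul_eq_mul]

/-- the approximations -/
noncomputable def apx (f : k⟦X⟧) (n : ℕ) (a : k) : ℕ → k⟦X⟧
  | 0 => C a
  | m + 1 => apx f n a m + C ((coeff (m + 1) f - coeff (m + 1) (apx f n a m ^ n)) /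
      (n * a ^ (n - 1))) * X ^ (m + 1)

theorem apx_const (f : k⟦X⟧) (n : ℕ) (a : k) (m : ℕ) : constantCoeff (apx f n a m) = a := by
  induction m with
  | zero => rw [apx, constantCoeff_C]
  | succ m ih =>
    rw [apx, map_add, map_mul, ih, map_pow constantCoeff, constantCoeff_X]
    simp

theorem apx_pow (f : k⟦X⟧) (n : ℕ) (a : k) (ha : a ^ n = constantCoeff f)
    (hn : (n : k) * a ^ (n - 1) ≠ 0) (m : ℕ) : ∀ j ≤ m, coeff j (apx f n a m ^ n) = coeff j f := by
  induction m with
  | zero =>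
    intro j hj
    obtain rfl : j = 0 := by omega
    rw [apx, coeff_zero_eq_constantCoeff_apply, map_pow, constantCoeff_C, ha,
      coeff_zero_eq_constantCoeff_apply]
  | succ m ih =>
    intro j hj
    have h1 := pow_step (apx f n a m)
      ((coeff (m + 1) f - coeff (m + 1) (apx f n a m ^ n)) / (n * a ^ (n - 1))) n m
    rw [apx]
    rcases Nat.lt_or_ge m j with h2 | h2
    · obtain rfl : j = m + 1 := by omega
      rw [h1.2, apx_const, div_mul_cancel₀ _ hn]
      ring
    · rw [h1.1 j h2, ih j h2]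

theorem apx_coeff (f : k⟦X⟧) (n : ℕ) (a : k) (j i : ℕ) :
    coeff j (apx f n a (j + i)) = coeff j (apx f n a j) := by
  induction i with
  | zero => rfl
  | succ i ih =>
    rw [← add_assoc, apx, map_add, ih, coeff_C_mul, coeff_X_pow, if_neg (by omega), mul_zero,
      add_zero]

end

theorem pf_RTP : Pool.Agent.H3.OD.T_RTP := by
  intro k _ _ _ n f hn hf
  obtain ⟨a, ha⟩ := IsAlgClosed.exists_pow_nat_eq (constantCoeff f) hn
  have ha0 : a ≠ 0 := by
    rintro rfl
    rw [zero_pow hn.ne'] at ha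
    exact hf ha.symm
  have hn0 : (n : k) * a ^ (n - 1) ≠ 0 :=
    mul_ne_zero (Nat.cast_ne_zero.2 hn.ne') (pow_ne_zero _ ha0)
  refine ⟨mk fun m => coeff m (apx f n a m), ?_⟩
  set g : k⟦X⟧ := mk fun m => coeff m (apx f n a m) with hg
  ext m
  have h1 : X ^ (m + 1) ∣ g - apx f n a m := by
    rw [X_pow_dvd_iff]
    intro j hj
    obtain ⟨i, rfl⟩ : ∃ i, m = j + i := ⟨m - j, by omega⟩
    rw [map_sub, apx_coeff, hg, coeff_mk, sub_self]
  have h2 : X ^ (m + 1) ∣ g ^ n - apx f n a m ^ n := h1.trans (sub_dvd_pow_sub_pow _ _ n)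
  have h3 := X_pow_dvd_iff.1 h2 m (Nat.lt_succ_self m)
  rw [map_sub, sub_eq_zero] at h3
  rw [h3, apx_pow f n a ha hn0 m m le_rfl]

end Pool.Agent.H69.OD
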